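import Pool.Agent.H71.CR.Stmt

/-!
# MP_5607ba_lc, board cwr_modules, row CLT: closures in finite sets are determined by the labels
-/

set_option autoImplicit false

open Set Pool.Agent.TK Pool.Agent.H71.VK

namespace Pool.Agent.CR

section h96clt

/-- lists in an image -/
private lemma lift_list {A : Set ℕ} {h : ℕ → ℕ} : ∀ D : List ℕ, (∀ x ∈ D, x ∈ h '' A) →
    ∃ D' : List ℕ, (∀ x ∈ D', x ∈ A) ∧ D'.map h = D := by
  intro D
  induction D with
  | nil => exact fun _ => ⟨[], by simp, rfl⟩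
  | cons a D ih =>
    intro hD
    obtain ⟨D', h1, h2⟩ := ih fun x hx => hD x (List.mem_cons_of_mem _ hx)
    obtain ⟨b, hb, rfl⟩ := hD a List.mem_cons_self
    refine ⟨b :: D', ?_, by rw [List.map_cons, h2]⟩
    intro x hx
    rcases List.mem_cons.1 hx with rfl | hx
    · exact hb
    · exact h1 x hx

/-- lists of pairs in an image -/
private lemma lift_pairs {A : Set ℕ} {h : ℕ → ℕ} : ∀ p : List (ℕ × ℕ),
    (∀ z ∈ p, z.1 ∈ h '' A ∧ z.2 ∈ h '' A) →
    ∃ p' : List (ℕ × ℕ), (∀ z ∈ p', z.1 ∈ A ∧ z.2 ∈ A) ∧ p'.map (Prod.map h h) = p := by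
  intro p
  induction p with
  | nil => exact fun _ => ⟨[], by simp, rfl⟩
  | cons a p ih =>
    intro hp
    obtain ⟨p', h1, h2⟩ := ih fun x hx => hp x (List.mem_cons_of_mem _ hx)
    obtain ⟨a1, a2⟩ := a
    obtain ⟨⟨b, hb, hb1⟩, ⟨d, hd, hd1⟩⟩ := hp (a1, a2) List.mem_cons_self
    simp only at hb1 hd1
    refine ⟨(b, d) :: p', ?_, by rw [List.map_cons, h2, Prod.map_apply, hb1, hd1]⟩
    intro x hx
    rcases List.mem_cons.1 hx with rfl | hx
    · exact ⟨hb, hd⟩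
    · exact h1 x hx

/-- transfer of positions along a map which preserves the labels of the lists from `G` -/
private lemma pl_tr {c c' : Lf} {h : ℕ → ℕ} {G : Set ℕ}
    (H : ∀ l : List ℕ, (∀ a ∈ l, a ∈ G) → c' (l.map h) = c l) (p : List (ℕ × ℕ))
    (hp : ∀ z ∈ p, z.1 ∈ G ∧ z.2 ∈ G) :
    Pl c' c' (p.map (Prod.map h h)) ↔ Pl c c p := by
  have e1 : ∀ q : List (ℕ × ℕ), (q.map (Prod.map h h)).map Prod.fst = (q.map Prod.fst).map h := by
    intro q
    rw [List.map_map, List.map_map]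
    rfl
  have e2 : ∀ q : List (ℕ × ℕ), (q.map (Prod.map h h)).map Prod.snd = (q.map Prod.snd).map h := by
    intro q
    rw [List.map_map, List.map_map]
    rfl
  have g1 : ∀ q : List (ℕ × ℕ), (∀ z ∈ q, z ∈ p) → ∀ a ∈ q.map Prod.fst, a ∈ G := by
    intro q hq a ha
    obtain ⟨w, hw, rfl⟩ := List.mem_map.1 ha
    exact (hp w (hq w hw)).1
  have g2 : ∀ q : List (ℕ × ℕ), (∀ z ∈ q, z ∈ p) → ∀ a ∈ q.map Prod.snd, a ∈ G := by
    intro q hq a ha
    obtain ⟨w, hw, rfl⟩ := List.mem_map.1 ha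
    exact (hp w (hq w hw)).2
  constructor
  · intro h1 q hq
    have h2 := h1 (q.map (Prod.map h h)) fun z hz => by
      obtain ⟨w, hw, rfl⟩ := List.mem_map.1 hz
      exact List.mem_map_of_mem (hq w hw)
    rw [e1, e2, H _ (g1 q hq), H _ (g2 q hq)] at h2
    exact h2
  · intro h1 q hq
    obtain ⟨q', hq', rfl⟩ : ∃ q' : List (ℕ × ℕ), (∀ w ∈ q', w ∈ p) ∧
        q'.map (Prod.map h h) = q := by
      have hch : ∀ z ∈ q, ∃ w ∈ p, Prod.map h h w = z := fun z hz => List.mem_map.1 (hq z hz)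
      clear hq
      induction q with
      | nil => exact ⟨[], by simp, rfl⟩
      | cons z q ih =>
        obtain ⟨q', h2, h3⟩ := ih fun z hz => hch z (List.mem_cons_of_mem _ hz)
        obtain ⟨w, hw, rfl⟩ := hch z List.mem_cons_self
        refine ⟨w :: q', ?_, by rw [List.map_cons, h3]⟩
        intro v hv
        rcases List.mem_cons.1 hv with rfl | hv
        · exact hw
        · exact h2 v hv
    rw [e1, e2, H _ (g1 q' hq'), H _ (g2 q' hq')]
    exact h1 q' hq'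

/-- controlled sets are transported -/
private lemma cc_tr {c c' : Lf} {h : ℕ → ℕ} {G : Set ℕ} (hinj : Set.InjOn h G)
    (H : ∀ l : List ℕ, (∀ a ∈ l, a ∈ G) → c' (l.map h) = c l) {L : List ℕ} {F : Ed}
    {U Z : Set ℕ} (hL : ∀ a ∈ L, a ∈ G) (hF : ∀ e ∈ F, ∀ a ∈ e, a ∈ G) (hU : U ⊆ G)
    (hZ : Z ⊆ U) :
    Cc c' (L.map h) (F.map (List.map h)) (h '' U) (h '' Z) ↔ Cc c L F U Z := by
  have hzG : ∀ (d e : List ℕ), (∀ a ∈ d, a ∈ G) → (∀ a ∈ e, a ∈ G) →
      ∀ z ∈ d.zip e, z.1 ∈ G ∧ z.2 ∈ G := by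
    intro d e hd he z hz
    exact ⟨hd _ (List.of_mem_zip hz).1, he _ (List.of_mem_zip hz).2⟩
  have hdG : ∀ D : List ℕ, (∀ a ∈ D, a ∈ G) → ∀ z ∈ dg D, z.1 ∈ G ∧ z.2 ∈ G := by
    intro D hD z hz
    have h1 := mem_dg.1 hz
    exact ⟨hD _ h1.2, h1.1 ▸ hD _ h1.2⟩
  have happ : ∀ p q : List (ℕ × ℕ), (∀ z ∈ p, z.1 ∈ G ∧ z.2 ∈ G) →
      (∀ z ∈ q, z.1 ∈ G ∧ z.2 ∈ G) → ∀ z ∈ p ++ q, z.1 ∈ G ∧ z.2 ∈ G := by
    intro p q hp hq z hz
    rcases List.mem_append.1 hz with h1 | h1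
    · exact hp z h1
    · exact hq z h1
  have hmem : ∀ {A : Set ℕ} {a : ℕ}, A ⊆ G → a ∈ G → (h a ∈ h '' A ↔ a ∈ A) := by
    intro A a hA ha
    constructor
    · rintro ⟨b, hb, hba⟩
      rwa [← hinj (hA hb) ha hba]
    · exact fun hb => ⟨a, hb, rfl⟩
  have hZG : Z ⊆ G := hZ.trans hU
  constructor
  · intro hc
    refine ⟨hZ, ?_, ?_⟩
    · intro p hp hpl D hD
      have hpG : ∀ z ∈ p, z.1 ∈ G ∧ z.2 ∈ G := fun z hz => ⟨hZG (hp z hz).1, hZG (hp z hz).2⟩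
      have hDG : ∀ a ∈ D, a ∈ G := fun a ha => hU (hD a ha).1
      have h1 := hc.ctl (p.map (Prod.map h h)) (by
        intro z hz
        obtain ⟨w, hw, rfl⟩ := List.mem_map.1 hz
        exact ⟨⟨_, (hp w hw).1, rfl⟩, ⟨_, (hp w hw).2, rfl⟩⟩) (by
        rw [dg_map, ← List.map_append, pl_tr H _ (happ _ _ (hdG L hL) hpG)]
        exact hpl) (D.map h) (by
        intro x hx
        obtain ⟨w, hw, rfl⟩ := List.mem_map.1 hx
        exact ⟨⟨w, (hD w hw).1, rfl⟩, fun h2 => (hD w hw).2 ((hmem hZG (hDG w hw)).1 h2)⟩)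
      rw [dg_map, dg_map, ← List.map_append, ← List.map_append,
        pl_tr H _ (happ _ _ (hdG D hDG) (happ _ _ (hdG L hL) hpG))] at h1
      exact h1
    · intro e he d hd hdU hpl hex x hx
      have hdG' : ∀ a ∈ d, a ∈ G := fun a ha => hU (hdU a ha)
      have h1 := hc.edg (e.map h) (List.mem_map_of_mem he) (d.map h) (by simpa using hd) (by
        intro x hx
        obtain ⟨w, hw, rfl⟩ := List.mem_map.1 hx
        exact ⟨w, hdU w hw, rfl⟩) (by
        rw [zip_map2, dg_map, ← List.map_append,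
          pl_tr H _ (happ _ _ (hdG L hL) (hzG d e hdG' (hF e he)))]
        exact hpl) (by
        obtain ⟨x, hx, hxZ⟩ := hex
        exact ⟨h x, List.mem_map_of_mem hx, ⟨x, hxZ, rfl⟩⟩)
      exact (hmem hZG (hdG' x hx)).1 (h1 _ (List.mem_map_of_mem hx))
  · intro hc
    refine ⟨Set.image_mono hZ, ?_, ?_⟩
    · intro p hp hpl D hD
      obtain ⟨p, hp', rfl⟩ := lift_pairs p hp
      obtain ⟨D, hD', rfl⟩ := lift_list (A := U) D fun x hx => (hD x hx).1
      have hpG : ∀ z ∈ p, z.1 ∈ G ∧ z.2 ∈ G := fun z hz => ⟨hZG (hp' z hz).1, hZG (hp' z hz).2⟩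
      have hDG : ∀ a ∈ D, a ∈ G := fun a ha => hU (hD' a ha)
      rw [dg_map, ← List.map_append, pl_tr H _ (happ _ _ (hdG L hL) hpG)] at hpl
      rw [dg_map, dg_map, ← List.map_append, ← List.map_append,
        pl_tr H _ (happ _ _ (hdG D hDG) (happ _ _ (hdG L hL) hpG))]
      exact hc.ctl p hp' hpl D fun x hx => ⟨hD' x hx, fun h1 =>
        (hD _ (List.mem_map_of_mem hx)).2 ⟨x, h1, rfl⟩⟩
    · intro e he d hd hdU hpl hex x hx
      obtain ⟨e, he0, rfl⟩ := List.mem_map.1 he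
      obtain ⟨d, hd', rfl⟩ := lift_list (A := U) d hdU
      have hdG' : ∀ a ∈ d, a ∈ G := fun a ha => hU (hd' a ha)
      rw [zip_map2, dg_map, ← List.map_append,
        pl_tr H _ (happ _ _ (hdG L hL) (hzG d e hdG' (hF e he0)))] at hpl
      obtain ⟨w, hw, rfl⟩ := List.mem_map.1 hx
      refine ⟨w, hc.edg e he0 d (by simpa using hd) hd' hpl ?_ w hw, rfl⟩
      obtain ⟨y, hy, hyZ⟩ := hex
      obtain ⟨v, hv, rfl⟩ := List.mem_map.1 hy
      exact ⟨v, hv, (hmem hZG (hdG' v hv)).1 hyZ⟩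

end h96clt

theorem pf_CLT : T_CLT := by
  intro c c' p hpat hpl h W L F x hW hL hF hx z hz
  let G : Set ℕ := {a | (a, h a) ∈ p}
  have hinj : Set.InjOn h G := fun a ha b hb hab => (hpat _ ha _ hb).2 hab
  have H : ∀ l : List ℕ, (∀ a ∈ l, a ∈ G) → c' (l.map h) = c l := by
    intro l hl
    have h1 := hpl (l.map fun a => (a, h a)) (by
      intro z hz
      obtain ⟨a, ha, rfl⟩ := List.mem_map.1 hz
      exact hl a ha)
    rw [List.map_map, List.map_map] at h1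
    have e1 : l.map (Prod.fst ∘ fun a => (a, h a)) = l := by
      conv_rhs => rw [← List.map_id l]
      rfl
    have e2 : l.map (Prod.snd ∘ fun a => (a, h a)) = l.map h := rfl
    rw [e1, e2] at h1
    exact h1.symm
  have hmapm : ∀ {A : List ℕ} {w : ℕ × ℕ}, (∀ a ∈ A, a ∈ G) → w ∈ p →
      (w.2 ∈ A.map h ↔ w.1 ∈ A) := by
    intro A w hA hw
    constructor
    · intro h1
      obtain ⟨b, hb, hb1⟩ := List.mem_map.1 h1
      have h2 : b = w.1 := (hpat (b, h b) (hA b hb) w hw).2 hb1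
      rwa [← h2]
    · intro h1
      have h2 : h w.1 = w.2 := (hpat (w.1, h w.1) (hA _ h1) w hw).1 rfl
      rw [← h2]
      exact List.mem_map_of_mem h1
  have hUG : Ur (ms W) L ⊆ G := fun a ha => hW a ha.1
  have hU' : Ur (ms (W.map h)) (L.map h) = h '' Ur (ms W) L := by
    ext y
    constructor
    · rintro ⟨h1, h2⟩
      obtain ⟨a, ha, rfl⟩ := List.mem_map.1 h1
      exact ⟨a, ⟨ha, fun h3 => h2 (List.mem_map_of_mem h3)⟩, rfl⟩
    · rintro ⟨a, ⟨ha, h2⟩, rfl⟩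
      refine ⟨List.mem_map_of_mem ha, fun h3 => h2 ?_⟩
      exact (hmapm (w := (a, h a)) hL (hW a ha)).1 h3
  have hzU : z.2 ∈ Ur (ms (W.map h)) (L.map h) ↔ z.1 ∈ Ur (ms W) L :=
    and_congr (hmapm hW hz) (not_congr (hmapm hL hz))
  have hz2 : z.1 ∈ Ur (ms W) L → z.2 = h z.1 := fun h1 =>
    ((hpat (z.1, h z.1) (hW _ h1.1) z hz).1 rfl).symm
  have hmem : ∀ {A : Set ℕ} {a : ℕ}, A ⊆ G → a ∈ G → (h a ∈ h '' A ↔ a ∈ A) := by
    intro A a hA ha
    constructor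
    · rintro ⟨b, hb, hba⟩
      rwa [← hinj (hA hb) ha hba]
    · exact fun hb => ⟨a, hb, rfl⟩
  constructor
  · rintro ⟨h1, h2⟩
    refine ⟨hzU.2 h1, fun Z' hZ' hx' => ?_⟩
    have hZsub : Z' ⊆ h '' Ur (ms W) L := hU' ▸ hZ'.sub
    have hZe : Z' = h '' {a | a ∈ Ur (ms W) L ∧ h a ∈ Z'} := by
      ext y
      constructor
      · intro hy
        obtain ⟨a, ha, rfl⟩ := hZsub hy
        exact ⟨a, ⟨ha, hy⟩, rfl⟩
      · rintro ⟨a, ha, rfl⟩
        exact ha.2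
    have h3 : Cc c L F (Ur (ms W) L) {a | a ∈ Ur (ms W) L ∧ h a ∈ Z'} := by
      rw [← cc_tr hinj H hL hF hUG (fun a ha => ha.1), ← hZe, ← hU']
      exact hZ'
    have h4 := h2 _ h3 fun a ha => by
      have h5 : h a ∈ Z' := hx' (h a) (List.mem_map_of_mem ha)
      refine ⟨?_, h5⟩
      obtain ⟨b, hb, hba⟩ := hZsub h5
      have h6 : b = a := hinj (hUG hb) (hx a ha) hba
      rwa [← h6]
    rw [hz2 h1]
    exact h4.2
  · rintro ⟨h1, h2⟩
    have h1' := hzU.1 h1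
    refine ⟨h1', fun Z hZ hx' => ?_⟩
    have hZG : Z ⊆ G := hZ.sub.trans hUG
    have h3 : Cc c' (L.map h) (F.map (List.map h)) (Ur (ms (W.map h)) (L.map h)) (h '' Z) := by
      rw [hU', cc_tr hinj H hL hF hUG hZ.sub]
      exact hZ
    have h4 := h2 _ h3 fun a ha => by
      obtain ⟨b, hb, rfl⟩ := List.mem_map.1 ha
      exact ⟨b, hx' b hb, rfl⟩
    rw [hz2 h1'] at h4
    exact (hmem hZG (hUG h1')).1 h4

end Pool.Agent.CR
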